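import Pool.Agent.H20.MT.Stmts

/-! Module MONO of project MTA (helper5). -/

set_option autoImplicit false

namespace MTA
open Finset

namespace MonoAux

theorem fac_pos {P : Finset ℕ} {n : ℕ} (hP : ∀ p ∈ P, p.Prime) (A : Cfg P n) (k : Fin (n + 1)) (p : ↥P) :
    1 ≤ (if A p = some k then (p : ℕ) else 1) := by
  split_ifs
  · exact (hP _ p.2).one_le
  · exact le_rfl

theorem rr_pos {P : Finset ℕ} {n : ℕ} (hP : ∀ p ∈ P, p.Prime) (A : Cfg P n) (k : Fin (n + 1)) :
    1 ≤ rr A k := Finset.one_le_prod' (fun p _ => fac_pos hP A k p)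

theorem rr_mono {P : Finset ℕ} {n : ℕ} (hP : ∀ p ∈ P, p.Prime) {A A' : Cfg P n} (h : Ext A A')
    (k : Fin (n + 1)) : rr A k ≤ rr A' k := by
  refine Finset.prod_le_prod' (fun p _ => ?_)
  by_cases h1 : A p = some k
  · rw [if_pos h1, if_pos (by rw [h p (by rw [h1]; simp), h1])]
  · rw [if_neg h1]
    exact fac_pos hP A' k p

theorem den_pos {α : ℝ} (hα : 0 ≤ α) {a : ℕ} (ha : 1 ≤ a) : 1 ≤ 1 + α * Real.log a := by
  have : 0 ≤ Real.log a := Real.log_nonneg (by exact_mod_cast ha)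
  nlinarith [mul_nonneg hα this]

theorem GG_nonneg {α V : ℝ} (hα : 0 ≤ α) {a : ℕ} (ha : 1 ≤ a) : 0 ≤ GG α V a := by
  unfold GG
  split_ifs
  · have := den_pos hα ha
    positivity
  · exact le_rfl

theorem GG_le_one {α V : ℝ} (hα : 0 ≤ α) {a : ℕ} (ha : 1 ≤ a) : GG α V a ≤ 1 := by
  unfold GG
  split_ifs
  · have := den_pos hα ha
    rw [div_le_one (by linarith)]
    exact this
  · exact zero_le_one

theorem GG_anti {α V : ℝ} (hα : 0 ≤ α) {a b : ℕ} (ha : 1 ≤ a) (hab : a ≤ b) : GG α V b ≤ GG α V a := by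
  by_cases hb : (b : ℝ) ≤ V
  · have h1 : (a : ℝ) ≤ V := le_trans (by exact_mod_cast hab) hb
    unfold GG
    rw [if_pos hb, if_pos h1]
    have h2 := den_pos hα ha
    have h3 : Real.log a ≤ Real.log b := Real.log_le_log (by exact_mod_cast ha) (by exact_mod_cast hab)
    apply one_div_le_one_div_of_le (by linarith)
    nlinarith [mul_le_mul_of_nonneg_left h3 hα]
  · have : GG α V b = 0 := by
      unfold GG
      rw [if_neg hb]
    rw [this]
    exact GG_nonneg hα ha

end MonoAux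

open MonoAux in
theorem MONO : S_MONO := by
  intro P n hP R0 R V α hα
  refine ⟨fun A => ⟨?_, ?_⟩, fun A A' h => ?_⟩
  · unfold yv
    split_ifs
    · exact Finset.prod_nonneg (fun k _ => GG_nonneg hα (rr_pos hP A _))
    · exact le_rfl
  · unfold yv
    split_ifs
    · exact Finset.prod_le_one (fun k _ => GG_nonneg hα (rr_pos hP A _))
        (fun k _ => GG_le_one hα (rr_pos hP A _))
    · exact zero_le_one
  · by_cases hc : (rr A' 0 : ℝ) ≤ R0 ∧ (∏ k : Fin n, (rr A' k.succ : ℝ)) ≤ R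
    · have h0 : (rr A 0 : ℝ) ≤ R0 ∧ (∏ k : Fin n, (rr A k.succ : ℝ)) ≤ R := by
        refine ⟨le_trans (by exact_mod_cast rr_mono hP h 0) hc.1, le_trans ?_ hc.2⟩
        exact Finset.prod_le_prod (fun k _ => Nat.cast_nonneg _) (fun k _ => by exact_mod_cast rr_mono hP h _)
      unfold yv
      rw [if_pos hc, if_pos h0]
      exact Finset.prod_le_prod (fun k _ => GG_nonneg hα (rr_pos hP A' _))
        (fun k _ => GG_anti hα (rr_pos hP A _) (rr_mono hP h _))
    · have h1 : yv R0 R V α A' = 0 := by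
        unfold yv
        rw [if_neg hc]
      rw [h1]
      unfold yv
      split_ifs
      · exact Finset.prod_nonneg (fun k _ => GG_nonneg hα (rr_pos hP A _))
      · exact le_rfl

end MTA
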